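import Mathlib
import Pool.Agent.W223.AK.Basic
import Pool.Agent.W108.AK.Cls

/-!
Task AK-P1 (subtask of helper223, MP_a793bb_nt): pairs of coprime ideals whose quotient has its
`l`-th power in a given small set.
-/

set_option autoImplicit false

namespace Pool.Agent.W440.AK

open NumberField IsDedekindDomain Finset Pool.Agent.H691R3 Pool.Agent.W223.AK

variable {K : Type} [Field K] [NumberField K]

theorem mt_one_le (v : Pl K) : 1 ≤ mt v := by
  rcases v with w | v
  · rw [mt_inl]; exact_mod_cast InfinitePlace.mult_pos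
  · rw [mt_inr]

theorem mt_le_two (v : Pl K) : mt v ≤ 2 := by
  rcases v with w | v
  · rw [mt_inl]
    rcases InfinitePlace.isReal_or_isComplex w with hw | hw
    · rw [InfinitePlace.mult, if_pos hw]; norm_num
    · rw [InfinitePlace.mult, if_neg (InfinitePlace.not_isReal_iff_isComplex.mpr hw)]; norm_num
  · rw [mt_inr]; norm_num

/-! ### Local colourings -/

theorem fv_one_of_close {v : Pr K} {a : K} (h : fv v (a - 1) < 1) : fv v a = 1 := by
  apply le_antisymm
  · have h1 := fv_na v (a - 1) 1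
    rw [sub_add_cancel, map_one] at h1
    exact h1.trans (max_le h.le le_rfl)
  · by_contra hcon
    push Not at hcon
    have h1 := fv_na v a (-(a - 1))
    have e : a + -(a - 1) = 1 := by ring
    rw [e, map_one, (fv v).map_neg] at h1
    exact absurd h1 (not_le.mpr (max_lt hcon h))

theorem fv_div_close {v : Pr K} {a b : K} {r : ℝ} (ha : fv v (a - 1) ≤ r)
    (hb : fv v (b - 1) ≤ r) (hr : r < 1) : fv v (a / b - 1) ≤ r := by
  have hb1 := fv_one_of_close (hb.trans_lt hr)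
  have hb0 : b ≠ 0 := by
    intro h
    rw [h, map_zero] at hb1
    exact zero_ne_one hb1
  have e : a / b - 1 = ((a - 1) + -(b - 1)) / b := by
    field_simp
    ring
  rw [e, map_div₀, hb1, div_one]
  refine (fv_na v _ _).trans ?_
  rw [(fv v).map_neg]
  exact max_le ha hb

theorem fcol (v : Pr K) {l : ℕ} (hl : 0 < l) (hv : fv v (l : K) = 1) :
    ∃ c : K → Fin l, ∀ (n : ℕ) (y₀ z₀ z z' : K), 0 < n → y₀ ≠ 0 → fv v z₀ = 1 → fv v z = 1 →
      fv v z' = 1 → fv v (y₀ * z₀ ^ l - 1) ≤ (Nv v) ^ (-(n : ℤ)) →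
      fv v (y₀ * z ^ l - 1) ≤ (Nv v) ^ (-(n : ℤ)) → fv v (y₀ * z' ^ l - 1) ≤ (Nv v) ^ (-(n : ℤ)) →
      c (z / z₀) = c (z' / z₀) → fv v (z / z' - 1) ≤ (Nv v) ^ (-(n : ℤ)) := by
  obtain ⟨c, hc⟩ := branch_coloring v hl
  refine ⟨c, ?_⟩
  intro n y₀ z₀ z z' hn hy₀ h0 h1 h2 k0 k1 k2 hcc
  have hN := Nv_one_lt v
  have hlt : (Nv v) ^ (-(n : ℤ)) < 1 := by
    rw [zpow_neg, zpow_natCast]
    exact inv_lt_one_of_one_lt₀ (one_lt_pow₀ hN hn.ne')
  have hne : ∀ x : K, fv v x = 1 → x ≠ 0 := by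
    intro x hx h
    rw [h, map_zero] at hx
    exact zero_ne_one hx
  have hz₀ := hne _ h0
  have hz' := hne _ h2
  have e1 : ∀ x x' : K, (x / x') ^ l = (y₀ * x ^ l) / (y₀ * x' ^ l) := by
    intro x x'
    rw [div_pow, mul_div_mul_left _ _ hy₀]
  have p1 : fv v ((z / z₀) ^ l - 1) < 1 := by
    rw [e1]; exact (fv_div_close k1 k0 hlt).trans_lt hlt
  have p2 : fv v ((z' / z₀) ^ l - 1) < 1 := by
    rw [e1]; exact (fv_div_close k2 k0 hlt).trans_lt hlt
  have q1 : fv v (z / z₀) = 1 := by rw [map_div₀, h1, h0, div_one]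
  have q2 : fv v (z' / z₀) = 1 := by rw [map_div₀, h2, h0, div_one]
  have h3 := hc (z / z₀) (z' / z₀) q1.le q2.le p1 p2 hcc
  have e2 : z / z' - 1 = (z / z₀ - z' / z₀) / (z' / z₀) := by field_simp
  have h4 : fv v (z / z' - 1) < 1 := by
    rw [e2, map_div₀, q2, div_one]; exact h3
  refine (root_na (fv v) (fv_na v) hv h4).trans ?_
  rw [e1]
  exact fv_div_close k1 k2 hlt

theorem win_bound (v : Pl K) {z z' : K} (hz : z ≠ 0) (hz' : z' ≠ 0)
    (hwin : |mt v * Real.log (av v z) - mt v * Real.log (av v z')| ≤ 1) (hne : z ≠ z') :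
    mt v * Real.log (av v (z / z' - 1)) ≤ 2 * Real.log (Real.exp 1 + 1) := by
  have hm1 := mt_one_le v
  have hm2 := mt_le_two v
  have hm0 : 0 < mt v := by linarith
  have hloge : 0 ≤ Real.log (Real.exp 1 + 1) :=
    Real.log_nonneg (by have := Real.exp_pos 1; linarith)
  have hu0 : z / z' - 1 ≠ 0 := by
    rw [sub_ne_zero, Ne, div_eq_one_iff_eq hz']
    exact hne
  have hupos : 0 < av v (z / z' - 1) := (av v).pos hu0
  have h1 : Real.log (av v (z / z')) ≤ 1 := by
    rw [map_div₀, Real.log_div ((av v).pos hz).ne' ((av v).pos hz').ne']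
    have h2 := (abs_le.mp hwin).2
    have h3 : mt v * (Real.log (av v z) - Real.log (av v z')) ≤ 1 := by
      rw [mul_sub]; exact h2
    by_contra h4
    push Not at h4
    nlinarith
  have h2 : av v (z / z') ≤ Real.exp 1 := by
    rw [← Real.log_le_iff_le_exp ((av v).pos (div_ne_zero hz hz'))]
    exact h1
  have h3 : av v (z / z' - 1) ≤ Real.exp 1 + 1 := by
    have h5 := (av v).add_le (z / z') (-1)
    rw [(av v).map_neg, (av v).map_one, ← sub_eq_add_neg] at h5
    linarith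
  have h4 : Real.log (av v (z / z' - 1)) ≤ Real.log (Real.exp 1 + 1) := Real.log_le_log hupos h3
  calc mt v * Real.log (av v (z / z' - 1)) ≤ mt v * Real.log (Real.exp 1 + 1) :=
        mul_le_mul_of_nonneg_left h4 hm0.le
    _ ≤ 2 * Real.log (Real.exp 1 + 1) := mul_le_mul_of_nonneg_right hm2 hloge

theorem vcol (v : Pl K) {l : ℕ} (hl : 0 < l) (A : ℝ) (hA : 0 ≤ A) :
    ∃ (N : ℕ) (c : K → Fin N) (A' : ℝ), 0 ≤ A' ∧ ∀ (s : ℝ) (y₀ z₀ z z' : K), y₀ ≠ 0 → z₀ ≠ 0 →
      z ≠ 0 → z' ≠ 0 →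
      (av v (y₀ * z₀ ^ l - 1)) ^ (mt v) ≤ Real.exp (A - s) →
      (av v (y₀ * z ^ l - 1)) ^ (mt v) ≤ Real.exp (A - s) →
      (av v (y₀ * z' ^ l - 1)) ^ (mt v) ≤ Real.exp (A - s) →
      c (z / z₀) = c (z' / z₀) →
      |mt v * Real.log (av v z) - mt v * Real.log (av v z')| ≤ 1 → z ≠ z' →
      mt v * Real.log (av v (z / z' - 1)) ≤ A' - s := by
  have hm1 := mt_one_le v
  have hm2 := mt_le_two v
  have hm0 : 0 < mt v := by linarith
  have hlK : (l : K) ≠ 0 := by exact_mod_cast hl.ne'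
  have hlf : 0 < av v (l : K) := (av v).pos hlK
  obtain ⟨ε, hε, hε1, hroot⟩ := root_gen (av v) hl hlf
  obtain ⟨N, c, hc⟩ := tb_place v (ε / 2) (by positivity)
  set B : ℝ := 2 * |Real.log (6 / av v (l : K))| with hB
  have hB0 : 0 ≤ B := by positivity
  have hlog16 : 0 ≤ Real.log 16 := Real.log_nonneg (by norm_num)
  have hloge : 0 ≤ Real.log (Real.exp 1 + 1) :=
    Real.log_nonneg (by have := Real.exp_pos 1; linarith)
  refine ⟨N, c, A + Real.log 16 + 2 * Real.log (Real.exp 1 + 1) + B, by positivity, ?_⟩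
  intro s y₀ z₀ z z' hy₀ hz₀ hz hz' h0 h h' hcc hwin hne
  have hu0 : z / z' - 1 ≠ 0 := by
    rw [sub_ne_zero, Ne, div_eq_one_iff_eq hz']
    exact hne
  have hupos : 0 < av v (z / z' - 1) := (av v).pos hu0
  by_cases hs : s < A + Real.log 16
  · have h5 := win_bound v hz hz' hwin hne
    linarith
  · push Not at hs
    set η : ℝ := Real.exp ((A - s) / mt v) with hη
    have hη0 : 0 < η := Real.exp_pos _
    have hη4 : η ≤ 1 / 4 := by
      have h1 : (A - s) / mt v ≤ -Real.log 4 := by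
        rw [div_le_iff₀ hm0]
        have h16 : Real.log 16 = 2 * Real.log 4 := by
          rw [show (16 : ℝ) = 4 ^ 2 by norm_num, Real.log_pow]; norm_num
        have h4 : 0 ≤ Real.log 4 := Real.log_nonneg (by norm_num)
        nlinarith
      calc η ≤ Real.exp (-Real.log 4) := Real.exp_le_exp.mpr h1
        _ = 1 / 4 := by rw [Real.exp_neg, Real.exp_log (by norm_num)]; norm_num
    have key : ∀ a : K, (av v (a - 1)) ^ (mt v) ≤ Real.exp (A - s) → av v (a - 1) ≤ η := by
      intro a ha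
      have h1 : Real.exp (A - s) = η ^ mt v := by
        rw [hη, ← Real.exp_mul, div_mul_cancel₀ _ hm0.ne']
      rw [h1] at ha
      exact (Real.rpow_le_rpow_iff ((av v).nonneg _) hη0.le hm0).mp ha
    have up : ∀ a : K, av v (a - 1) ≤ η → av v a ≤ 5 / 4 := by
      intro a ha
      have h1 := (av v).add_le (a - 1) 1
      rw [sub_add_cancel, (av v).map_one] at h1
      linarith
    have lo : ∀ a : K, av v (a - 1) ≤ η → 3 / 4 ≤ av v a := by
      intro a ha
      have h1 := (av v).add_le (-(a - 1)) a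
      have e : -(a - 1) + a = 1 := by ring
      rw [e, (av v).map_one, (av v).map_neg] at h1
      linarith
    have k0 := key _ h0
    have k1 := key _ h
    have k2 := key _ h'
    have u0 := up _ k0
    have u1 := up _ k1
    have u2 := up _ k2
    have l0 := lo _ k0
    have l1 := lo _ k1
    have l2 := lo _ k2
    have e1 : ∀ x x' : K, (x / x') ^ l = (y₀ * x ^ l) / (y₀ * x' ^ l) := by
      intro x x'
      rw [div_pow, mul_div_mul_left _ _ hy₀]
    have bd : ∀ x : K, av v (y₀ * x ^ l) ≤ 5 / 4 → av v (x / z₀) ≤ 2 := by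
      intro x hx
      by_contra hcon
      push Not at hcon
      have h1 : av v ((x / z₀) ^ l) ≤ 2 := by
        rw [e1, map_div₀, div_le_iff₀ (by linarith)]
        linarith
      rw [map_pow] at h1
      have h2 : av v (x / z₀) ≤ av v (x / z₀) ^ l := le_self_pow₀ (by linarith) hl.ne'
      linarith
    have b1 := bd _ u1
    have b2 := bd _ u2
    have b3 : 1 / 2 ≤ av v (z' / z₀) := by
      by_contra hcon
      push Not at hcon
      have h1 : 1 / 2 ≤ av v ((z' / z₀) ^ l) := by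
        rw [e1, map_div₀, le_div_iff₀ (by linarith)]
        linarith
      rw [map_pow] at h1
      have h2 : av v (z' / z₀) ^ l ≤ av v (z' / z₀) :=
        pow_le_of_le_one ((av v).nonneg _) (by linarith) hl.ne'
      linarith
    have h3 := hc _ _ b1 b2 hcc
    have e3 : z / z' - 1 = (z / z₀ - z' / z₀) / (z' / z₀) := by field_simp
    have h4 : av v (z / z' - 1) ≤ ε := by
      rw [e3, map_div₀, div_le_iff₀ (by linarith)]
      nlinarith
    have h5 := hroot _ h4
    have h6 : av v ((z / z') ^ l - 1) ≤ 3 * η := by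
      have hne' : y₀ * z' ^ l ≠ 0 := mul_ne_zero hy₀ (pow_ne_zero _ hz')
      have e5 : (z / z') ^ l - 1 = (y₀ * z ^ l - y₀ * z' ^ l) / (y₀ * z' ^ l) := by
        rw [e1, sub_div, div_self hne']
      rw [e5, map_div₀, div_le_iff₀ (by linarith)]
      have h7 : av v (y₀ * z ^ l - y₀ * z' ^ l) ≤ 2 * η := by
        have h8 := (av v).add_le (y₀ * z ^ l - 1) (-(y₀ * z' ^ l - 1))
        rw [(av v).map_neg] at h8
        have e : y₀ * z ^ l - 1 + -(y₀ * z' ^ l - 1) = y₀ * z ^ l - y₀ * z' ^ l := by ring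
        rw [e] at h8
        linarith
      nlinarith
    have h7 : av v (z / z' - 1) ≤ 6 / av v (l : K) * η := by
      refine h5.trans ?_
      have h8 : 0 < 2 / av v (l : K) := by positivity
      calc 2 / av v (l : K) * av v ((z / z') ^ l - 1) ≤ 2 / av v (l : K) * (3 * η) :=
            mul_le_mul_of_nonneg_left h6 h8.le
        _ = _ := by ring
    have h8 : Real.log (av v (z / z' - 1)) ≤ Real.log (6 / av v (l : K)) + (A - s) / mt v := by
      refine (Real.log_le_log hupos h7).trans (le_of_eq ?_)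
      rw [Real.log_mul (by positivity) hη0.ne', hη, Real.log_exp]
    have h9 : mt v * Real.log (av v (z / z' - 1)) ≤
        mt v * Real.log (6 / av v (l : K)) + (A - s) := by
      calc mt v * Real.log (av v (z / z' - 1))
          ≤ mt v * (Real.log (6 / av v (l : K)) + (A - s) / mt v) :=
            mul_le_mul_of_nonneg_left h8 hm0.le
        _ = _ := by field_simp
    have h10 : mt v * Real.log (6 / av v (l : K)) ≤ B := by
      calc mt v * Real.log (6 / av v (l : K)) ≤ mt v * |Real.log (6 / av v (l : K))| :=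
            mul_le_mul_of_nonneg_left (le_abs_self _) hm0.le
        _ ≤ 2 * |Real.log (6 / av v (l : K))| := mul_le_mul_of_nonneg_right hm2 (abs_nonneg _)
    linarith

/-! ### The elements attached to pairs -/

/-- the quotient attached to a pair of ideals -/
noncomputable def zz (ϖ : Pr K → K) (t : Idl K × Idl K) : K := gen ϖ t.1 / gen ϖ t.2

section U

variable {S : Finset (Pr K)} {ϖ : Pr K → K} {C : ℝ}

theorem zz_ne (hU : Unif S ϖ C) (t : Idl K × Idl K) : zz ϖ t ≠ 0 :=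
  div_ne_zero (gen_ne hU _) (gen_ne hU _)

theorem fv_zz (hU : Unif S ϖ C) {t : Idl K × Idl K} (h1 : OffS S t.1) (h2 : OffS S t.2) {v : Pr K}
    (hv : v ∉ S) : fv v (zz ϖ t) = (Nv v) ^ ((t.2 v : ℤ) - t.1 v) := by
  unfold zz
  rw [map_div₀, fv_gen hU h1 hv, fv_gen hU h2 hv, ← zpow_sub₀ (Nv_pos v).ne']
  congr 1
  ring

theorem log_fv_zz (hU : Unif S ϖ C) {t : Idl K × Idl K} (h1 : OffS S t.1) (h2 : OffS S t.2)
    {v : Pr K} (hv : v ∉ S) :
    Real.log (fv v (zz ϖ t)) = ((t.2 v : ℝ) - t.1 v) * Real.log (Nv v) := by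
  rw [fv_zz hU h1 h2 hv, Real.log_zpow]
  push_cast
  ring

theorem zz_inj (hU : Unif S ϖ C) {t t' : Idl K × Idl K} (h1 : OffS S t.1) (h2 : OffS S t.2)
    (hc : Cop t.1 t.2) (h1' : OffS S t'.1) (h2' : OffS S t'.2) (hc' : Cop t'.1 t'.2)
    (h : zz ϖ t = zz ϖ t') : t = t' := by
  have key : ∀ v, t.1 v = t'.1 v ∧ t.2 v = t'.2 v := by
    intro v
    by_cases hv : v ∈ S
    · rw [h1 v hv, h2 v hv, h1' v hv, h2' v hv]; exact ⟨rfl, rfl⟩
    · have e1 := fv_zz hU h1 h2 hv
      have e2 := fv_zz hU h1' h2' hv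
      rw [h, e2] at e1
      have e3 := Nv_zpow_inj v e1
      have c1 := hc v
      have c2 := hc' v
      omega
  refine Prod.ext ?_ ?_
  · ext v; exact (key v).1
  · ext v; exact (key v).2

theorem sum_spec_zz (hU : Unif S ϖ C) {t : Idl K × Idl K} (h1 : OffS S t.1) (h2 : OffS S t.2) :
    ∑ v ∈ Spl S, mt v * Real.log (av v (zz ϖ t)) = len t.1 - len t.2 := by
  classical
  have hd : Disjoint S (t.1.support ∪ t.2.support) := by
    rw [Finset.disjoint_left]
    intro v hv hv'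
    rw [Finset.mem_union, Finsupp.mem_support_iff, Finsupp.mem_support_iff] at hv'
    rcases hv' with h | h
    · exact h (h1 v hv)
    · exact h (h2 v hv)
  have h3 := product_formula S (zz_ne hU t) (t.1.support ∪ t.2.support) ?_ hd
  · have h4 : ∑ v ∈ t.1.support ∪ t.2.support, Real.log (fv v (zz ϖ t)) = len t.2 - len t.1 := by
      rw [len_eq_sum (a := t.1) (s := t.1.support ∪ t.2.support) subset_union_left,
        len_eq_sum (a := t.2) (s := t.1.support ∪ t.2.support) subset_union_right,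
        ← Finset.sum_sub_distrib]
      refine Finset.sum_congr rfl fun v hv => ?_
      rw [log_fv_zz hU h1 h2 (fun hvS => (Finset.disjoint_left.mp hd hvS) hv)]
      ring
    linarith
  · intro v hv hv'
    rw [Finset.mem_union, not_or, Finsupp.notMem_support_iff, Finsupp.notMem_support_iff] at hv'
    rw [fv_zz hU h1 h2 hv, hv'.1, hv'.2]
    simp

/-- the difference of two quotients -/
theorem diff_lower (hU : Unif S ϖ C) {f : Idl K} (hf : OffS S f) {t t' : Idl K × Idl K}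
    (h1 : OffS S t.1) (h2 : OffS S t.2) (h1' : OffS S t'.1) (h2' : OffS S t'.2)
    (hc1 : Cop t.1 f) (hc2 : Cop t.2 f) (hc1' : Cop t'.1 f) (hc2' : Cop t'.2 f)
    (hcl : ∀ v, f v ≠ 0 → fv v (zz ϖ t / zz ϖ t' - 1) ≤ (Nv v) ^ (-(f v : ℤ)))
    (hne : zz ϖ t ≠ zz ϖ t') :
    -(len t.2 + len t'.2 - len f) ≤
      ∑ v ∈ Spl S, mt v * Real.log (av v (zz ϖ t - zz ϖ t')) := by
  classical
  have hne' : zz ϖ t - zz ϖ t' ≠ 0 := sub_ne_zero.mpr hne
  have hz' := zz_ne hU t'
  set s : Finset (Pr K) := (t.2.support ∪ t'.2.support ∪ f.support ∪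
    (fv_support_finite hne').toFinset) \ S with hs
  have hd : Disjoint S s := Finset.disjoint_sdiff
  have hP := product_formula S hne' s ?_ hd
  · have hsub : ∀ a : Idl K, OffS S a → a.support ⊆ t.2.support ∪ t'.2.support ∪ f.support ∪
        (fv_support_finite hne').toFinset → a.support ⊆ s := by
      intro a ha hsub v hv
      rw [hs, Finset.mem_sdiff]
      exact ⟨hsub hv, fun hvS => (Finsupp.mem_support_iff.mp hv) (ha v hvS)⟩
    have g1 : len t.2 = ∑ v ∈ s, (t.2 v : ℝ) * Real.log (Nv v) :=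
      len_eq_sum (hsub _ h2 (fun v hv => by simp only [Finset.mem_union]; tauto))
    have g2 : len t'.2 = ∑ v ∈ s, (t'.2 v : ℝ) * Real.log (Nv v) :=
      len_eq_sum (hsub _ h2' (fun v hv => by simp only [Finset.mem_union]; tauto))
    have g3 : len f = ∑ v ∈ s, (f v : ℝ) * Real.log (Nv v) :=
      len_eq_sum (hsub _ hf (fun v hv => by simp only [Finset.mem_union]; tauto))
    have h4 : ∑ v ∈ s, Real.log (fv v (zz ϖ t - zz ϖ t')) ≤ len t.2 + len t'.2 - len f := by
      rw [g1, g2, g3, ← Finset.sum_add_distrib, ← Finset.sum_sub_distrib]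
      refine Finset.sum_le_sum fun v hv => ?_
      have hvS : v ∉ S := (Finset.mem_sdiff.mp hv).2
      have hpos : 0 < fv v (zz ϖ t - zz ϖ t') := (fv v).pos hne'
      have hN := Nv_one_lt v
      have hb : fv v (zz ϖ t - zz ϖ t') ≤ (Nv v) ^ ((t.2 v : ℤ) + t'.2 v - f v) := by
        by_cases hfv : f v = 0
        · have h5 := fv_na v (zz ϖ t) (-zz ϖ t')
          rw [(fv v).map_neg, ← sub_eq_add_neg] at h5
          refine h5.trans (max_le ?_ ?_)
          · rw [fv_zz hU h1 h2 hvS]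
            refine zpow_le_zpow_right₀ hN.le ?_
            rw [hfv]; push_cast; omega
          · rw [fv_zz hU h1' h2' hvS]
            refine zpow_le_zpow_right₀ hN.le ?_
            rw [hfv]; push_cast; omega
        · have e1 : t.2 v = 0 := (hc2 v).resolve_right hfv
          have e2 : t'.2 v = 0 := (hc2' v).resolve_right hfv
          have e3 : t'.1 v = 0 := (hc1' v).resolve_right hfv
          have e4 : fv v (zz ϖ t') = 1 := by
            rw [fv_zz hU h1' h2' hvS, e2, e3]; simp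
          have e5 : zz ϖ t - zz ϖ t' = (zz ϖ t / zz ϖ t' - 1) * zz ϖ t' := by
            field_simp
          rw [e5, map_mul, e4, mul_one, e1, e2]
          refine (hcl v hfv).trans (le_of_eq ?_)
          congr 1
          push_cast
          ring
      have h6 := Real.log_le_log hpos hb
      rw [Real.log_zpow] at h6
      refine h6.trans (le_of_eq ?_)
      push_cast
      ring
    linarith
  · intro v hv hv'
    by_contra hcon
    apply hv'
    rw [hs, Finset.mem_sdiff]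
    refine ⟨?_, hv⟩
    rw [Finset.mem_union]
    right
    rw [Set.Finite.mem_toFinset]
    exact hcon

end U

theorem nine {m : ℕ} (h1 : 1 ≤ m) (h2 : m ≤ 2) {y : ℝ} (hy : 0 < y) :
    (1 + 2 * y) ^ m ≤ 9 * (1 + y ^ m) := by
  have : m = 1 ∨ m = 2 := by omega
  rcases this with rfl | rfl
  · simp only [pow_one]; linarith
  · nlinarith [sq_nonneg (y - 1)]

open Classical in
/-- separated points: one class -/
theorem pack {S : Finset (Pr K)} {ϖ : Pr K → K} {C : ℝ} (hU : Unif S ϖ C) {A b : ℝ} {f : Idl K}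
    {V : Finset (Pl K)} {σ : Pl K → ℝ} (hA : 0 ≤ A) (hV : V ⊆ Spl S) (hf : OffS S f)
    (G : Finset (Idl K × Idl K))
    (hG : ∀ t ∈ G, OffS S t.1 ∧ OffS S t.2 ∧ Cop t.1 f ∧ Cop t.2 f ∧ Cop t.1 t.2 ∧
      len t.1 ≤ b ∧ len t.2 ≤ b)
    (h1 : ∀ t ∈ G, ∀ t' ∈ G, ∀ v ∈ Spl S,
      |mt v * Real.log (av v (zz ϖ t)) - mt v * Real.log (av v (zz ϖ t'))| ≤ 1)
    (h2 : ∀ t ∈ G, ∀ t' ∈ G, |len t.2 - len t'.2| ≤ 1)
    (h3 : ∀ t ∈ G, ∀ t' ∈ G, ∀ v, f v ≠ 0 → fv v (zz ϖ t / zz ϖ t' - 1) ≤ (Nv v) ^ (-(f v : ℤ)))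
    (h4 : ∀ t ∈ G, ∀ t' ∈ G, ∀ v ∈ Spl S, zz ϖ t ≠ zz ϖ t' →
      mt v * Real.log (av v (zz ϖ t / zz ϖ t' - 1)) ≤ A - (if v ∈ V then σ v else 0)) :
    (G.card : ℝ) ≤ 9 * Real.exp ((Spl S).card * (A + 1) + 2) *
      (1 + Real.exp (2 * b - lenM f V σ)) := by
  rcases G.eq_empty_or_nonempty with hG0 | ⟨t₁, ht₁⟩
  · rw [hG0, Finset.card_empty, Nat.cast_zero]
    positivity
  obtain ⟨w⟩ : Nonempty (InfinitePlace K) := inferInstance
  set W : Pl K := Sum.inl w with hW
  have hWS : W ∈ Spl S := mem_Spl_inl S w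
  set τ : Pl K → ℝ := fun v => if v ∈ V then σ v else 0 with hτ
  set u : Pl K → ℝ := fun v => mt v * Real.log (av v (zz ϖ t₁)) with hu
  set PR : ℝ := u W + 1 + A - τ W with hPR
  set Pρ : ℝ := -(2 * len t₁.2 + 2 - len f) - ∑ v ∈ (Spl S).erase W, (u v + 1 + A - τ v) with hPρ
  have hmW : mt W = (w.mult : ℝ) := rfl
  have hm0 : (0 : ℝ) < w.mult := by exact_mod_cast InfinitePlace.mult_pos
  have hsplit : ∀ t ∈ G, ∀ t' ∈ G, zz ϖ t ≠ zz ϖ t' → ∀ v ∈ Spl S,
      mt v * Real.log (av v (zz ϖ t - zz ϖ t')) ≤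
        mt v * Real.log (av v (zz ϖ t')) + A - τ v := by
    intro t ht t' ht' hne v hv
    have hz' := zz_ne hU t'
    have e5 : zz ϖ t - zz ϖ t' = (zz ϖ t / zz ϖ t' - 1) * zz ϖ t' := by field_simp
    have hne1 : zz ϖ t / zz ϖ t' - 1 ≠ 0 := by
      rw [sub_ne_zero, Ne, div_eq_one_iff_eq hz']; exact hne
    rw [e5, map_mul, Real.log_mul ((av v).pos hne1).ne' ((av v).pos hz').ne', mul_add]
    have := h4 t ht t' ht' v hv hne
    simp only [hτ]
    linarith
  have hR : ∀ t ∈ G, w (zz ϖ t - zz ϖ t₁) ≤ Real.exp (PR / w.mult) := by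
    intro t ht
    by_cases hne : zz ϖ t = zz ϖ t₁
    · rw [hne, sub_self, map_zero]; exact (Real.exp_pos _).le
    · have h5 := hsplit t ht t₁ ht₁ hne W hWS
      have hpos : 0 < w (zz ϖ t - zz ϖ t₁) := w.pos_iff.mpr (sub_ne_zero.mpr hne)
      rw [← Real.log_le_iff_le_exp hpos, le_div_iff₀ hm0]
      have h6 : mt W * Real.log (av W (zz ϖ t - zz ϖ t₁)) =
          Real.log (w (zz ϖ t - zz ϖ t₁)) * w.mult := by
        rw [hmW]; rw [mul_comm]; rfl
      rw [← h6]
      have h7 : u W = mt W * Real.log (av W (zz ϖ t₁)) := rfl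
      linarith
  have hρ : ∀ t ∈ G, ∀ t' ∈ G, zz ϖ t ≠ zz ϖ t' →
      Real.exp (Pρ / w.mult) ≤ w (zz ϖ t - zz ϖ t') := by
    intro t ht t' ht' hne
    obtain ⟨a1, a2, a3, a4, a5, a6, a7⟩ := hG t ht
    obtain ⟨b1, b2, b3, b4, b5, b6, b7⟩ := hG t' ht'
    have h5 := diff_lower hU hf a1 a2 b1 b2 a3 a4 b3 b4 (h3 t ht t' ht') hne
    rw [← Finset.add_sum_erase _ _ hWS] at h5
    have h6 : ∑ v ∈ (Spl S).erase W, mt v * Real.log (av v (zz ϖ t - zz ϖ t')) ≤
        ∑ v ∈ (Spl S).erase W, (u v + 1 + A - τ v) := by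
      refine Finset.sum_le_sum fun v hv => ?_
      have hv' := Finset.mem_of_mem_erase hv
      have h7 := hsplit t ht t' ht' hne v hv'
      have h8 := (abs_le.mp (h1 t' ht' t₁ ht₁ v hv')).2
      have h9 : u v = mt v * Real.log (av v (zz ϖ t₁)) := rfl
      linarith
    have h7 := (abs_le.mp (h2 t ht t₁ ht₁)).2
    have h8 := (abs_le.mp (h2 t' ht' t₁ ht₁)).2
    have hpos : 0 < w (zz ϖ t - zz ϖ t') := w.pos_iff.mpr (sub_ne_zero.mpr hne)
    rw [← Real.le_log_iff_exp_le hpos, div_le_iff₀ hm0]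
    have h9 : mt W * Real.log (av W (zz ϖ t - zz ϖ t')) =
        Real.log (w (zz ϖ t - zz ϖ t')) * w.mult := by
      rw [hmW]; rw [mul_comm]; rfl
    rw [← h9]
    linarith
  have hpack := packing_place w (G.image (zz ϖ)) (zz ϖ t₁) (Real.exp (PR / w.mult))
    (Real.exp (Pρ / w.mult)) (Real.exp_pos _).le (Real.exp_pos _) ?_ ?_
  · have hcard : (G.image (zz ϖ)).card = G.card := by
      refine Finset.card_image_of_injOn ?_
      intro t ht t' ht' h
      obtain ⟨a1, a2, a3, a4, a5, a6, a7⟩ := hG t ht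
      obtain ⟨b1, b2, b3, b4, b5, b6, b7⟩ := hG t' ht'
      exact zz_inj hU a1 a2 a5 b1 b2 b5 h
    rw [hcard] at hpack
    have hratio : 1 + 2 * Real.exp (PR / w.mult) / Real.exp (Pρ / w.mult) =
        1 + 2 * Real.exp ((PR - Pρ) / w.mult) := by
      rw [mul_div_assoc, ← Real.exp_sub, ← sub_div]
    rw [hratio] at hpack
    have hmult : w.mult ≤ 2 := by
      have := mt_le_two W
      rw [hmW] at this
      exact_mod_cast this
    have h5 := hpack.trans (nine InfinitePlace.mult_pos hmult (Real.exp_pos _))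
    have h6 : Real.exp ((PR - Pρ) / w.mult) ^ w.mult = Real.exp (PR - Pρ) := by
      rw [← Real.exp_nat_mul, mul_div_cancel₀ _ hm0.ne']
    rw [h6] at h5
    -- the exponent
    have h7 : PR - Pρ = len t₁.1 + len t₁.2 - lenM f V σ + ((Spl S).card * (A + 1) + 2) := by
      have h8 : u W + 1 + A - τ W + ∑ v ∈ (Spl S).erase W, (u v + 1 + A - τ v) =
          ∑ v ∈ Spl S, (u v + 1 + A - τ v) :=
        Finset.add_sum_erase _ (fun v => u v + 1 + A - τ v) hWS
      have h9 : ∑ v ∈ Spl S, (u v + 1 + A - τ v) =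
          ∑ v ∈ Spl S, u v + (Spl S).card * (A + 1) - ∑ v ∈ Spl S, τ v := by
        rw [Finset.sum_sub_distrib]
        congr 1
        have e : ∀ v, u v + 1 + A = u v + (A + 1) := fun v => by ring
        simp only [e]
        rw [Finset.sum_add_distrib, Finset.sum_const, nsmul_eq_mul]
      have h10 : ∑ v ∈ Spl S, τ v = ∑ v ∈ V, σ v := by
        simp only [hτ]
        rw [Finset.sum_ite_mem, Finset.inter_eq_right.mpr hV]
      obtain ⟨a1, a2, a3, a4, a5, a6, a7⟩ := hG t₁ ht₁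
      have h11 : ∑ v ∈ Spl S, u v = len t₁.1 - len t₁.2 := sum_spec_zz hU a1 a2
      unfold lenM
      rw [hPR, hPρ]
      linarith
    have h12 : PR - Pρ ≤ (2 * b - lenM f V σ) + ((Spl S).card * (A + 1) + 2) := by
      obtain ⟨a1, a2, a3, a4, a5, a6, a7⟩ := hG t₁ ht₁
      rw [h7]
      linarith
    have h13 : Real.exp (PR - Pρ) ≤ Real.exp (2 * b - lenM f V σ) *
        Real.exp ((Spl S).card * (A + 1) + 2) := by
      rw [← Real.exp_add]; exact Real.exp_le_exp.mpr h12
    have h14 : 1 ≤ Real.exp ((Spl S).card * (A + 1) + 2) := Real.one_le_exp (by positivity)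
    calc (G.card : ℝ) ≤ 9 * (1 + Real.exp (PR - Pρ)) := h5
      _ ≤ 9 * (Real.exp ((Spl S).card * (A + 1) + 2) + Real.exp (2 * b - lenM f V σ) *
        Real.exp ((Spl S).card * (A + 1) + 2)) := by linarith
      _ = _ := by ring
  · intro x hx
    obtain ⟨t, ht, rfl⟩ := Finset.mem_image.mp hx
    exact hR t ht
  · intro x hx y hy hne
    obtain ⟨t, ht, rfl⟩ := Finset.mem_image.mp hx
    obtain ⟨t', ht', rfl⟩ := Finset.mem_image.mp hy
    exact hρ t ht t' ht' hne

/-- Task AK-P1 -/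
theorem p1 {S : Finset (Pr K)} {w : Pr K → K} {C : ℝ} (hU : Unif S w C) (hO : StmtOMG K) :
    StmtP1 S w := by
  classical
  intro l hl hSl ε A hε hA
  have hl0 : 0 < l := hl
  have hC1 := hU.one_le
  -- constants
  obtain ⟨D₁, hD₁, hOm⟩ := hO l (ε / 2) (by exact_mod_cast hl) (by positivity)
  have hvc := fun v : Pl K => vcol v hl0 A hA
  choose N cv A' hA'0 hcv using hvc
  have hfc : ∀ v : Pr K, ∃ c : K → Fin l, v ∉ S → ∀ (n : ℕ) (y₀ z₀ z z' : K), 0 < n → y₀ ≠ 0 →
      fv v z₀ = 1 → fv v z = 1 → fv v z' = 1 → fv v (y₀ * z₀ ^ l - 1) ≤ (Nv v) ^ (-(n : ℤ)) →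
      fv v (y₀ * z ^ l - 1) ≤ (Nv v) ^ (-(n : ℤ)) → fv v (y₀ * z' ^ l - 1) ≤ (Nv v) ^ (-(n : ℤ)) →
      c (z / z₀) = c (z' / z₀) → fv v (z / z' - 1) ≤ (Nv v) ^ (-(n : ℤ)) := by
    intro v
    by_cases hv : v ∈ S
    · exact ⟨fun _ => ⟨0, hl0⟩, fun h => absurd hv h⟩
    · obtain ⟨c, hc⟩ := fcol v hl0 (hSl l hl le_rfl v hv)
      exact ⟨c, fun _ => hc⟩
  choose cf hcf using hfc
  obtain ⟨Dc, hDc, hcells⟩ := Pool.Agent.W108.AK.cells (Option ↥(Spl S)) 0 (ε / 2 / (4 * C))
    le_rfl (by positivity)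
  have hloge : 0 ≤ Real.log (Real.exp 1 + 1) :=
    Real.log_nonneg (by have := Real.exp_pos 1; linarith)
  set A2 : ℝ := ∑ v ∈ Spl S, A' v + 2 * Real.log (Real.exp 1 + 1) with hA2
  have hsumA : 0 ≤ ∑ v ∈ Spl S, A' v := Finset.sum_nonneg fun v _ => hA'0 v
  have hA20 : 0 ≤ A2 := by positivity
  set NN : ℝ := ∏ v ∈ Spl S, (N v : ℝ) with hNN
  have hNN0 : 0 ≤ NN := Finset.prod_nonneg fun v _ => Nat.cast_nonneg _
  set M : ℝ := 9 * Real.exp ((Spl S).card * (A2 + 1) + 2) with hM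
  have hM0 : 0 < M := by positivity
  refine ⟨Dc * D₁ * (NN + 1) * M, by positivity, ?_⟩
  intro X b f V σ y₀ Q hb hbX hf hfX hV hσ hy₀ hQ
  have hX : 0 ≤ X := hb.trans hbX
  set n : ℝ := M * (1 + Real.exp (2 * b - lenM f V σ)) with hn
  have hn0 : 0 ≤ n := by positivity
  rcases Q.eq_empty_or_nonempty with hQ0 | ⟨t₀, ht₀⟩
  · rw [hQ0, Finset.card_empty, Nat.cast_zero]
    positivity
  obtain ⟨c1, c2, c3, c4, c5, c6, c7, c8⟩ := hQ t₀ ht₀
  -- the windows
  have hstep : (Q.card : ℝ) ≤ Dc * Real.exp (ε / 2 / (4 * C) * (4 * C * X)) *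
      ((∏ _v ∈ f.support, (l : ℝ)) * (NN * n)) := by
    refine hcells (Idl K × Idl K) (fun j t => j.elim (len t.2)
      (fun v => mt v.1 * Real.log (av v.1 (zz w t)) + 2 * C * X)) (4 * C * X) Q (by positivity)
      ?_ _ (by positivity) ?_
    · intro t ht j
      obtain ⟨a1, a2, a3, a4, a5, a6, a7, a8⟩ := hQ t ht
      rcases j with _ | v
      · simp only [Option.elim]
        have := len_nonneg t.2
        constructor
        · linarith
        · nlinarith
      · simp only [Option.elim]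
        have e1 : mt v.1 * Real.log (av v.1 (zz w t)) = mt v.1 * Real.log (av v.1 (gen w t.1)) -
            mt v.1 * Real.log (av v.1 (gen w t.2)) := by
          unfold zz
          rw [map_div₀, Real.log_div ((av v.1).pos (gen_ne hU _)).ne'
            ((av v.1).pos (gen_ne hU _)).ne', mul_sub]
        have s1 := abs_le.mp (spec_gen hU a1 v.2)
        have s2 := abs_le.mp (spec_gen hU a2 v.2)
        have s3 : C * len t.1 ≤ C * X := mul_le_mul_of_nonneg_left (a6.trans hbX) (by linarith)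
        have s4 : C * len t.2 ≤ C * X := mul_le_mul_of_nonneg_left (a7.trans hbX) (by linarith)
        rw [e1]
        constructor
        · linarith [s1.1, s2.2]
        · linarith [s1.2, s2.1]
    · intro G hGQ hwin
      have hwin1 : ∀ t ∈ G, ∀ t' ∈ G, ∀ v ∈ Spl S,
          |mt v * Real.log (av v (zz w t)) - mt v * Real.log (av v (zz w t'))| ≤ 1 := by
        intro t ht t' ht' v hv
        have h1 := hwin (some ⟨v, hv⟩) t ht t' ht'
        simp only [Option.elim] at h1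
        have e : mt v * Real.log (av v (zz w t)) + 2 * C * X -
            (mt v * Real.log (av v (zz w t')) + 2 * C * X) =
            mt v * Real.log (av v (zz w t)) - mt v * Real.log (av v (zz w t')) := by ring
        rw [e] at h1
        exact h1
      have hwin2 : ∀ t ∈ G, ∀ t' ∈ G, |len t.2 - len t'.2| ≤ 1 := fun t ht t' ht' =>
        hwin none t ht t' ht'
      have hm := multi_coloring f.support (fun _ => l)
        (fun v (t : Idl K × Idl K) => cf v (zz w t / zz w t₀)) (NN * n) G ?_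
      · exact hm
      intro G' hG' hcol'
      refine multi_coloring (Spl S) N (fun v (t : Idl K × Idl K) => cv v (zz w t / zz w t₀)) n G' ?_
      intro G'' hG'' hcol''
      have hGG : G'' ⊆ G := hG''.trans hG'
      have hGQ' : G'' ⊆ Q := hGG.trans hGQ
      refine pack hU hA20 hV hf G'' ?_ (fun t ht t' ht' => hwin1 t (hGG ht) t' (hGG ht'))
        (fun t ht t' ht' => hwin2 t (hGG ht) t' (hGG ht')) ?_ ?_
      · intro t ht
        obtain ⟨a1, a2, a3, a4, a5, a6, a7, a8⟩ := hQ t (hGQ' ht)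
        exact ⟨a1, a2, a3, a4, a5, a6, a7⟩
      · intro t ht t' ht' v hfv
        obtain ⟨a1, a2, a3, a4, a5, a6, a7, a8⟩ := hQ t (hGQ' ht)
        obtain ⟨b1, b2, b3, b4, b5, b6, b7, b8⟩ := hQ t' (hGQ' ht')
        have hvS : v ∉ S := fun h => hfv (hf v h)
        have hone : ∀ s : Idl K × Idl K, OffS S s.1 → OffS S s.2 → Cop s.1 f → Cop s.2 f →
            fv v (zz w s) = 1 := by
          intro s d1 d2 d3 d4
          rw [fv_zz hU d1 d2 hvS, (d3 v).resolve_right hfv, (d4 v).resolve_right hfv]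
          simp
        exact hcf v hvS (f v) y₀ (zz w t₀) (zz w t) (zz w t') (Nat.pos_of_ne_zero hfv) hy₀
          (hone _ c1 c2 c3 c4) (hone _ a1 a2 a3 a4) (hone _ b1 b2 b3 b4)
          (c8.1 v hfv) (a8.1 v hfv) (b8.1 v hfv)
          (hcol' v (Finsupp.mem_support_iff.mpr hfv) t (hG'' ht) t' (hG'' ht'))
      · intro t ht t' ht' v hv hne
        obtain ⟨a1, a2, a3, a4, a5, a6, a7, a8⟩ := hQ t (hGQ' ht)
        obtain ⟨b1, b2, b3, b4, b5, b6, b7, b8⟩ := hQ t' (hGQ' ht')
        have hA'v : A' v ≤ ∑ v ∈ Spl S, A' v :=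
          Finset.single_le_sum (f := A') (fun v _ => hA'0 v) hv
        by_cases hvV : v ∈ V
        · rw [if_pos hvV]
          have h1 := hcv v (σ v) y₀ (zz w t₀) (zz w t) (zz w t') hy₀ (zz_ne hU _) (zz_ne hU _)
            (zz_ne hU _) (c8.2 v hvV) (a8.2 v hvV) (b8.2 v hvV)
            (hcol'' v hv t ht t' ht') (hwin1 t (hGG ht) t' (hGG ht') v hv) hne
          linarith
        · rw [if_neg hvV]
          have h1 := win_bound v (zz_ne hU t) (zz_ne hU t') (hwin1 t (hGG ht) t' (hGG ht') v hv) hne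
          linarith
  have hexp : ε / 2 / (4 * C) * (4 * C * X) = ε / 2 * X := by
    field_simp
  rw [hexp, Finset.prod_const] at hstep
  have h1 : (l : ℝ) ^ f.support.card ≤ D₁ * Real.exp (ε / 2 * X) := by
    refine (hOm f).trans ?_
    refine mul_le_mul_of_nonneg_left (Real.exp_le_exp.mpr ?_) hD₁.le
    exact mul_le_mul_of_nonneg_left hfX (by positivity)
  have h2 : Real.exp (ε / 2 * X) * Real.exp (ε / 2 * X) = Real.exp (ε * X) := by
    rw [← Real.exp_add]; congr 1; ring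
  calc (Q.card : ℝ) ≤ Dc * Real.exp (ε / 2 * X) * ((l : ℝ) ^ f.support.card * (NN * n)) := hstep
    _ ≤ Dc * Real.exp (ε / 2 * X) * ((D₁ * Real.exp (ε / 2 * X)) * ((NN + 1) * n)) := by
        refine mul_le_mul_of_nonneg_left ?_ (by positivity)
        refine mul_le_mul h1 ?_ (by positivity) (by positivity)
        exact mul_le_mul_of_nonneg_right (by linarith) hn0
    _ = Dc * D₁ * (NN + 1) * (Real.exp (ε / 2 * X) * Real.exp (ε / 2 * X)) * n := by ring
    _ = Dc * D₁ * (NN + 1) * M * Real.exp (ε * X) * (1 + Real.exp (2 * b - lenM f V σ)) := by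
        rw [h2, hn]; ring

end Pool.Agent.W440.AK
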